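import Pool.Agent.Lib.MP_11f292_co.Explicit

/-!
Packings of small congruent disks in the hyperbolic plane: the average contact degree stays below 5.
-/

set_option autoImplicit false

open scoped UpperHalfPlane Topology
open Filter

namespace Pool.Agent.Results.MP_11f292_co.SmallDisks

/-- The closed hyperbolic disks of radius `r` with centres in the finite set `S` have pairwise
disjoint interiors. -/
def IsPacking (r : ℝ) (S : Finset ℍ) : Prop :=
  ∀ x ∈ S, ∀ y ∈ S, x ≠ y →
    Disjoint (interior (Metric.closedBall x r)) (interior (Metric.closedBall y r))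

/-- The contact graph: two different disks are adjacent when they meet. -/
def contactGraph (r : ℝ) (S : Finset ℍ) : SimpleGraph S where
  Adj x y := x ≠ y ∧ (Metric.closedBall (x : ℍ) r ∩ Metric.closedBall (y : ℍ) r).Nonempty
  symm := ⟨fun _ _ h => ⟨h.1.symm, by rw [Set.inter_comm]; exact h.2⟩⟩
  loopless := ⟨fun _ h => h.1 rfl⟩

/-- The average degree `2 e / n` of the contact graph. -/
noncomputable def averageDegree (r : ℝ) (S : Finset ℍ) : ℝ :=
  2 * ((contactGraph r S).edgeSet.ncard : ℝ) / (S.card : ℝ)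

/-- The supremum `s(r)` of the average degrees over all nonempty finite packings by disks of
radius `r`. -/
noncomputable def supDegree (r : ℝ) : EReal :=
  ⨆ (S : Finset ℍ) (_ : S.Nonempty ∧ IsPacking r S), (averageDegree r S : EReal)

theorem two_mul_le_dist {r : ℝ} (hr : 0 < r) {x y : ℍ}
    (h : Disjoint (interior (Metric.closedBall x r)) (interior (Metric.closedBall y r))) :
    2 * r ≤ dist x y := by
  by_contra hlt
  push Not at hlt
  -- the open balls are Euclidean disks
  have hx : 0 < x.im := x.im_pos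
  have hy : 0 < y.im := y.im_pos
  have hs : 0 < Real.sinh r := Real.sinh_pos_iff.mpr hr
  have hd : dist (x.center r : ℂ) (y.center r : ℂ) < x.im * Real.sinh r + y.im * Real.sinh r := by
    have h1 : Real.cosh (dist x y) < Real.cosh (2 * r) := by
      rw [Real.cosh_lt_cosh, abs_of_nonneg dist_nonneg, abs_of_pos (by positivity)]
      exact hlt
    rw [Pool.Agent.HypPack.cosh_dist_eq, Real.cosh_two_mul, Real.cosh_sq r] at h1
    have h2 : ((x.re - y.re) ^ 2 + (x.im - y.im) ^ 2) / (2 * x.im * y.im) < 2 * Real.sinh r ^ 2 := by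
      linarith
    rw [div_lt_iff₀ (by positivity)] at h2
    rw [Complex.dist_eq]
    refine lt_of_pow_lt_pow_left₀ 2 (by positivity) ?_
    rw [← Complex.normSq_eq_norm_sq, Complex.normSq_apply]
    simp only [Complex.sub_re, Complex.sub_im, UpperHalfPlane.coe_re, UpperHalfPlane.coe_im,
      UpperHalfPlane.center_re, UpperHalfPlane.center_im]
    have h3 := Real.cosh_sq r
    nlinarith [sq_nonneg (x.im - y.im)]
  set A : ℝ := x.im * Real.sinh r with hA
  set B : ℝ := y.im * Real.sinh r with hB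
  have hA0 : 0 < A := by positivity
  have hB0 : 0 < B := by positivity
  set z : ℂ := ((B / (A + B) : ℝ) : ℂ) * (x.center r : ℂ) + ((A / (A + B) : ℝ) : ℂ) * (y.center r : ℂ)
    with hz
  have hsum : B / (A + B) + A / (A + B) = 1 := by field_simp; ring
  have hzx : dist z (x.center r : ℂ) < A := by
    have : z - (x.center r : ℂ) = ((A / (A + B) : ℝ) : ℂ) * ((y.center r : ℂ) - (x.center r : ℂ)) := by
      have h4 : ((B / (A + B) : ℝ) : ℂ) = 1 - ((A / (A + B) : ℝ) : ℂ) := by
        rw [eq_sub_iff_add_eq, ← Complex.ofReal_add, hsum, Complex.ofReal_one]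
      rw [hz, h4]; ring
    rw [Complex.dist_eq, this, norm_mul, Complex.norm_real, Real.norm_of_nonneg (by positivity),
      ← Complex.dist_eq, dist_comm]
    rw [div_mul_eq_mul_div, div_lt_iff₀ (by positivity)]
    exact mul_lt_mul_of_pos_left hd hA0
  have hzy : dist z (y.center r : ℂ) < B := by
    have : z - (y.center r : ℂ) = ((B / (A + B) : ℝ) : ℂ) * ((x.center r : ℂ) - (y.center r : ℂ)) := by
      have h4 : ((A / (A + B) : ℝ) : ℂ) = 1 - ((B / (A + B) : ℝ) : ℂ) := by
        rw [eq_sub_iff_add_eq, ← Complex.ofReal_add, add_comm, hsum, Complex.ofReal_one]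
      rw [hz, h4]; ring
    rw [Complex.dist_eq, this, norm_mul, Complex.norm_real, Real.norm_of_nonneg (by positivity),
      ← Complex.dist_eq]
    rw [div_mul_eq_mul_div, div_lt_iff₀ (by positivity)]
    exact mul_lt_mul_of_pos_left hd hB0
  have hzim : 0 < z.im := by
    rw [hz]
    simp only [Complex.add_im, Complex.mul_im, Complex.ofReal_re, Complex.ofReal_im, zero_mul,
      add_zero, UpperHalfPlane.coe_im]
    have h5 := (x.center r).im_pos
    have h6 := (y.center r).im_pos
    positivity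
  set w : ℍ := ⟨z, hzim⟩ with hw
  have hwx : dist w x < r := (UpperHalfPlane.dist_lt_iff_dist_coe_center_lt).mpr hzx
  have hwy : dist w y < r := (UpperHalfPlane.dist_lt_iff_dist_coe_center_lt).mpr hzy
  exact Set.disjoint_left.mp h (Metric.ball_subset_interior_closedBall hwx)
    (Metric.ball_subset_interior_closedBall hwy)

theorem averageDegree_le {r : ℝ} (hr : 0 < r) (hr1 : r ≤ (10 : ℝ) ^ (-(10 : ℝ) ^ (29 : ℝ)))
    {S : Finset ℍ} (hS : S.Nonempty) (hP : IsPacking r S) :
    averageDegree r S ≤ 5 - 1 / (2 * 10 ^ 26) := by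
  classical
  have hsep : ∀ x ∈ S, ∀ y ∈ S, x ≠ y → 2 * r ≤ dist x y := fun x hx y hy hxy =>
    two_mul_le_dist hr (hP x hx y hy hxy)
  have hmain := Pool.Agent.HypPack.explicit r hr hr1 S hsep
  have hcard : (0 : ℝ) < S.card := by exact_mod_cast hS.card_pos
  rw [averageDegree, div_le_iff₀ hcard]
  refine le_trans ?_ hmain
  have hadj : ∀ x y : S, (contactGraph r S).Adj x y → dist (x : ℍ) (y : ℍ) = 2 * r := by
    rintro x y ⟨hxy, w, hwx, hwy⟩
    have h1 : dist (x : ℍ) (y : ℍ) ≤ dist w (x : ℍ) + dist w (y : ℍ) := by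
      rw [dist_comm w (x : ℍ)]; exact dist_triangle _ _ _
    rw [Metric.mem_closedBall] at hwx hwy
    have h2 := hsep x x.2 y y.2 (fun h => hxy (Subtype.ext h))
    linarith
  have hdeg : 2 * ((contactGraph r S).edgeSet.ncard) = ∑ x : S, (contactGraph r S).degree x := by
    rw [SimpleGraph.sum_degrees_eq_twice_card_edges, ← SimpleGraph.coe_edgeFinset, Set.ncard_coe_finset]
  have hdeg' : (2 : ℝ) * ((contactGraph r S).edgeSet.ncard : ℝ)
      = ∑ x : S, ((contactGraph r S).degree x : ℝ) := by exact_mod_cast hdeg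
  rw [hdeg', ← Finset.sum_coe_sort S]
  refine Finset.sum_le_sum fun x _ => ?_
  have : (contactGraph r S).degree x ≤ (S.filter (fun y => dist (x : ℍ) y = 2 * r)).card := by
    rw [← SimpleGraph.card_neighborFinset_eq_degree]
    refine Finset.card_le_card_of_injOn (fun y => (y : ℍ)) ?_ (Subtype.val_injective.injOn)
    intro y hy
    rw [Finset.mem_coe, SimpleGraph.mem_neighborFinset] at hy
    simp only [Finset.coe_filter, Set.mem_ofPred_eq]
    exact ⟨y.2, hadj x y hy⟩
  exact_mod_cast this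

/-- Main result. -/
theorem result :
    limsup supDegree (𝓝[>] (0 : ℝ)) < 5 ∧
    ∀ r : ℝ, 0 < r → r ≤ (10 : ℝ) ^ (-(10 : ℝ) ^ (29 : ℝ)) →
      supDegree r ≤ ((5 - 1 / (2 * 10 ^ 26) : ℝ) : EReal) := by
  have h2 : ∀ r : ℝ, 0 < r → r ≤ (10 : ℝ) ^ (-(10 : ℝ) ^ (29 : ℝ)) →
      supDegree r ≤ ((5 - 1 / (2 * 10 ^ 26) : ℝ) : EReal) := by
    intro r hr hr1
    refine iSup_le fun S => iSup_le fun hS => ?_
    exact EReal.coe_le_coe_iff.mpr (averageDegree_le hr hr1 hS.1 hS.2)
  refine ⟨?_, h2⟩
  have hpos : (0 : ℝ) < (10 : ℝ) ^ (-(10 : ℝ) ^ (29 : ℝ)) := by positivity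
  have hev : ∀ᶠ r in 𝓝[>] (0 : ℝ), supDegree r ≤ ((5 - 1 / (2 * 10 ^ 26) : ℝ) : EReal) := by
    filter_upwards [Ioc_mem_nhdsGT hpos] with r hr using h2 r hr.1 hr.2
  refine lt_of_le_of_lt (limsup_le_of_le (by isBoundedDefault) hev) ?_
  have : ((5 - 1 / (2 * 10 ^ 26) : ℝ) : EReal) < ((5 : ℝ) : EReal) :=
    EReal.coe_lt_coe_iff.mpr (by norm_num)
  exact this

end Pool.Agent.Results.MP_11f292_co.SmallDisks
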